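import Pool.Agent.Q266.RP.Stm

/-! The lemma FONE of `Pool.Agent.Q266.RP.Stm`: Hall's power theorem for regular `p`-groups,
exponent `p`. -/

set_option autoImplicit false

namespace Pool.Agent.Q18.RP

open Pool.Agent.Q266.RP
open scoped commutatorElement

/-- Use of the power property of a subgroup. -/
theorem powOne_sub {p : ℕ} {G : Type} [Group G] (H : Subgroup G) (h : PowOne p H) (a b : G)
    (ha : a ∈ H) (hb : b ∈ H) : a ^ p = b ^ p ↔ (a⁻¹ * b) ^ p = 1 := by
  have h1 := h ⟨a, ha⟩ ⟨b, hb⟩
  simpa [Subtype.ext_iff] using h1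

theorem conj_mem_comm {G : Type} [Group G] (a b g : G) :
    g * (a⁻¹ * b⁻¹ * a * b) * g⁻¹ ∈ commutator G := by
  have h1 : a⁻¹ * b⁻¹ * a * b ∈ commutator G := by
    have h2 : a⁻¹ * b⁻¹ * a * b = ⁅a⁻¹, b⁻¹⁆ := by
      simp [commutatorElement_def]
    rw [h2, commutator_def]
    exact Subgroup.commutator_mem_commutator (Subgroup.mem_top _) (Subgroup.mem_top _)
  exact (inferInstance : (commutator G).Normal).conj_mem _ h1 g

/-- The elements of the commutator subgroup with trivial `p`-th power. -/
def kk {p : ℕ} {G : Type} [Group G] (h : PowOne p (commutator G)) : Subgroup G where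
  carrier := {g | g ∈ commutator G ∧ g ^ p = 1}
  mul_mem' := by
    rintro u v ⟨hu, hu1⟩ ⟨hv, hv1⟩
    refine ⟨mul_mem hu hv, ?_⟩
    have h1 := (powOne_sub (commutator G) h u⁻¹ v (inv_mem hu) hv).mp (by
      rw [inv_pow, hu1, hv1, inv_one])
    rwa [inv_inv] at h1
  one_mem' := ⟨one_mem _, one_pow _⟩
  inv_mem' := by
    rintro u ⟨hu, hu1⟩
    exact ⟨inv_mem hu, by rw [inv_pow, hu1, inv_one]⟩

theorem claim (hncl : S_NCL) (p : ℕ) (G : Type) [Group G] (hreg : Regular p G) (a b : G)
    (hgen : Subgroup.closure {a, b} = ⊤) (hcomm : PowOne p (commutator G))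
    (h1 : (a⁻¹ * b⁻¹ * a * b) ^ p = 1) : (a⁻¹ * b) ^ p = (a ^ p)⁻¹ * b ^ p := by
  have hK : commutator G ≤ kk hcomm := by
    apply hncl G a b hgen
    intro g
    refine ⟨conj_mem_comm a b g, ?_⟩
    rw [conj_pow, h1, mul_one, mul_inv_cancel]
  obtain ⟨s, hs, hs2⟩ := hreg a⁻¹ b
  have hs1 : s = 1 := by
    have h2 : Subgroup.closure {u : G | ∃ c ∈ ⁅Subgroup.closure ({a⁻¹, b} : Set G),
        Subgroup.closure ({a⁻¹, b} : Set G)⁆, u = c ^ p} ≤ ⊥ := by
      rw [Subgroup.closure_le]
      rintro u ⟨c, hc, rfl⟩
      have h3 : c ∈ commutator G := by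
        rw [commutator_def]
        exact Subgroup.commutator_mono le_top le_top hc
      have h4 : c ^ p = 1 := (hK h3).2
      rw [h4]
      exact one_mem _
    exact Subgroup.mem_bot.mp (h2 hs)
  rw [hs1, mul_one, inv_pow] at hs2
  exact hs2.symm

theorem fone_aux (hsub : S_SUB) (hprop : S_PROP) (hncl : S_NCL) (p : ℕ) [Fact p.Prime] :
    ∀ (n : ℕ) (G : Type) [Group G] [Finite G], Nat.card G = n → IsPGroup p G → Regular p G →
      PowOne p G := by
  intro n
  induction n using Nat.strong_induction_on with
  | _ n ih =>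
    intro G _ _ hn hpG hreg
    have key : ∀ H : Subgroup G, H ≠ ⊤ → PowOne p H := by
      intro H hH
      have hlt : Nat.card H < n := by
        rw [← hn]
        exact lt_of_le_of_ne (Subgroup.card_le_card_group H)
          (fun h => hH (Subgroup.eq_top_of_card_eq H h))
      exact ih _ hlt H rfl (hpG.to_subgroup H) (hsub.1 p G H hreg)
    intro a b
    by_cases hgen : Subgroup.closure ({a, b} : Set G) = ⊤
    swap
    · exact powOne_sub _ (key _ hgen) a b (Subgroup.subset_closure (by simp))
        (Subgroup.subset_closure (by simp))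
    by_cases hab : ∀ x y : G, x * y = y * x
    · have h1 : (a⁻¹ * b) ^ p = (a ^ p)⁻¹ * b ^ p := by
        rw [Commute.mul_pow (hab _ _), inv_pow]
      rw [h1]
      constructor
      · intro h
        rw [h, inv_mul_cancel]
      · intro h
        exact (eq_of_inv_mul_eq_one h)
    · have hH := hprop p G hpG a b hgen hab
      have hC : commutator G ≠ ⊤ := by
        intro h
        apply hH
        rw [h]
        exact sup_top_eq _
      have hcl := claim hncl p G hreg a b hgen (key _ hC)
      constructor
      · intro h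
        have h1 : (b⁻¹ * a * b) ^ p = b ^ p := by
          have h2 := conj_pow (i := p) (a := b⁻¹) (b := a)
          rw [inv_inv] at h2
          rw [h2, h]
          have h3 : b ^ p * b = b * b ^ p := (pow_mul_comm' b p)
          rw [mul_assoc, h3, inv_mul_cancel_left]
        have ha : a ∈ Subgroup.closure {a} ⊔ commutator G :=
          (le_sup_left : _ ≤ Subgroup.closure {a} ⊔ commutator G)
            (Subgroup.subset_closure (by simp))
        have hb : b⁻¹ * a * b ∈ Subgroup.closure {a} ⊔ commutator G := by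
          have e : b⁻¹ * a * b = a * (1 * (a⁻¹ * b⁻¹ * a * b) * 1⁻¹) := by group
          rw [e]
          exact mul_mem ha ((le_sup_right : _ ≤ Subgroup.closure {a} ⊔ commutator G)
            (conj_mem_comm a b 1))
        have h2 := (powOne_sub _ (key _ hH) a (b⁻¹ * a * b) ha hb).mp (by rw [h1, h])
        have e : a⁻¹ * (b⁻¹ * a * b) = a⁻¹ * b⁻¹ * a * b := by group
        rw [e] at h2
        rw [hcl h2, h, inv_mul_cancel]
      · intro h
        obtain ⟨c, hc⟩ : ∃ c, c = a⁻¹ * b := ⟨_, rfl⟩
        have hgen2 : Subgroup.closure ({c, a} : Set G) = ⊤ := by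
          rw [eq_top_iff, ← hgen, Subgroup.closure_le]
          have ha : a ∈ Subgroup.closure ({c, a} : Set G) :=
            Subgroup.subset_closure (by simp)
          have hc1 : c ∈ Subgroup.closure ({c, a} : Set G) :=
            Subgroup.subset_closure (by simp)
          have hb : b ∈ Subgroup.closure ({c, a} : Set G) := by
            have e : b = a * c := by rw [hc, mul_inv_cancel_left]
            rw [e]
            exact mul_mem ha hc1
          rintro x (rfl | hx)
          · exact ha
          · rw [Set.mem_singleton_iff.mp hx]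
            exact hb
        have hH2 := hprop p G hpG c a hgen2 hab
        rw [← hc] at h
        have h1 : (a⁻¹ * c * a) ^ p = 1 := by
          have h2 := conj_pow (i := p) (a := a⁻¹) (b := c)
          rw [inv_inv] at h2
          rw [h2, h, mul_one, inv_mul_cancel]
        have hcm : c ∈ Subgroup.closure {c} ⊔ commutator G :=
          (le_sup_left : _ ≤ Subgroup.closure {c} ⊔ commutator G)
            (Subgroup.subset_closure (by simp))
        have hcm2 : a⁻¹ * c * a ∈ Subgroup.closure {c} ⊔ commutator G := by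
          have e : a⁻¹ * c * a = c * (1 * (c⁻¹ * a⁻¹ * c * a) * 1⁻¹) := by group
          rw [e]
          exact mul_mem hcm ((le_sup_right : _ ≤ Subgroup.closure {c} ⊔ commutator G)
            (conj_mem_comm c a 1))
        have h2 := (powOne_sub _ (key _ hH2) c (a⁻¹ * c * a) hcm hcm2).mp (by rw [h1, h])
        have e : c⁻¹ * (a⁻¹ * c * a) = (a⁻¹ * b⁻¹ * a * b)⁻¹ := by
          rw [hc]; group
        rw [e, inv_pow, inv_eq_one] at h2
        have h3 := hcl h2
        rw [← hc, h] at h3
        exact eq_of_inv_mul_eq_one h3.symm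

theorem fone : S_SUB → S_PROP → S_NCL → S_FONE := by
  intro hsub hprop hncl p hp G _ _ hpG hreg
  exact fone_aux hsub hprop hncl p (Nat.card G) G rfl hpG hreg

end Pool.Agent.Q18.RP
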